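import Pool.Agent.helper53.EXT.SpecB

/-!
# Row `ftb:B0Y` (MP_561ff4_al)

The conjugate of `x(t) t⁻¹`.
-/

set_option autoImplicit false

open Finset

namespace Pool.Agent.EXT

open Pool.Agent.EXC

theorem B0Y_xe_zero {K : Type} [Field K] (a v : Lm C6 K) : xe C6 a 0 v = v := by
  unfold xe
  simp

theorem B0Y (hB0R : B0R_stmt) (hB0A : B0A_stmt) (hSGR : SGR_stmt) (hGFX : GFX_stmt) (hTOR : TOR_stmt) (hESF : ESF_stmt) : B0Y_stmt := by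
  intro K _ φ x hx
  have htau : ∀ c, (RingEquiv.refl K) ((RingEquiv.refl K) c) = c := fun c => rfl
  have htau1 : ∀ c, (RingEquiv.refl K) c = c := fun c => rfl
  have h2 : (1 : K) + 1 = 0 := by
    rw [← map_one φ, ← map_add]
    have : (1 : ZMod 2) + 1 = 0 := by decide
    rw [this, map_zero]
  obtain ⟨-, -, -, r1, r3, r1', r3', q0, q2, q0', q2', rth, rα, i3, i2, i4⟩ := hB0R
  obtain ⟨g1, g2, g3, g4, g5, g6⟩ := hSGR K (RingEquiv.refl K) htau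
  obtain ⟨e1, e2, e3, e4⟩ := f_EXF 6 C6 K (f_NBR 6 C6 1 th ![0, 2, 3, 4, 5] f_DE6.2).1
  have hpv : pv (sr 2) = sr 4 := by decide
  have hExS := (hESF K (RingEquiv.refl K) htau).1 (sr 3) r3
  obtain ⟨G1, G2⟩ := hGFX K (RingEquiv.refl K) htau
  obtain ⟨k1, k2, k3, k4, k5⟩ := G2 _ hExS
  obtain ⟨f₁, hf₁, hf₁X⟩ := k1 1 (htau1 1)
  have h0X : IsF (RingEquiv.refl K) (E C6 (sr 3)) 0 (1 : Equiv.Perm (LT (RingEquiv.refl K))) := by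
    intro v
    rw [B0Y_xe_zero]
    rfl
  have hne : f₁ ≠ 1 := by
    intro h
    rw [h] at hf₁X
    exact zero_ne_one (k4 0 1 1 h0X hf₁X)
  have hsq : f₁ * f₁ = 1 := by
    have h3 := k3 1 1 f₁ f₁ hf₁X hf₁X
    rw [h2] at h3
    refine Equiv.ext fun v => Subtype.ext ?_
    rw [h3 v, B0Y_xe_zero]
    rfl
  let t : GF (RingEquiv.refl K) := ⟨f₁, hf₁⟩
  have htinv : t⁻¹ = t := by
    rw [inv_eq_iff_mul_eq_one]
    exact Subtype.ext hsq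
  have htne : t ≠ 1 := fun h => hne (congrArg Subtype.val h)
  obtain ⟨b, hb⟩ := hx.b1 t ⟨1, htau1 1, hf₁X⟩
  have hb0 : b ≠ 0 := by
    intro h
    apply htne
    have hxt : x t = 1 := by
      refine Subtype.ext (Equiv.ext fun v => Subtype.ext ?_)
      rw [hb v, h, map_zero, mul_zero, B0Y_xe_zero, B0Y_xe_zero]
      rfl
    exact x.injective (hxt.trans (map_one x).symm)
  obtain ⟨h, hh, hhE⟩ := hTOR K (RingEquiv.refl K) htau ![0, 0, 1, 1, 1, 0] rα b⁻¹ (htau1 _) (inv_ne_zero hb0)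
  obtain ⟨f₀, hf₀, hf₀h⟩ := G1 h hh
  obtain ⟨y1, hy1, hy1X⟩ := g1 (sr 2) 1 q2
  obtain ⟨y0, hy0, hy0X⟩ := g2 (sr 3) 1 r3 (htau1 1)
  obtain ⟨A1, A2, A3, A4, A5, A6, A7, A8, A9⟩ := hB0A K φ y0
  obtain ⟨B1, B2, B3, B4, B5, B6, B7, B8, B9⟩ := hB0A K φ y1
  have hM0 := A1 hy0X
  have hM1 := B3 hy1X
  obtain ⟨hhE', hhA, -⟩ := g6 h hh
  -- action of `h`
  have hE3 : h (E C6 (sr 3)) = (E C6 (sr 3) : Lm C6 K) := by
    rw [hhE _ r3.1, i3, zpow_zero, one_smul]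
  have hE2 : h (E C6 (sr 2)) = b⁻¹ • (E C6 (sr 2) : Lm C6 K) := by
    rw [hhE _ q2.1, i2, zpow_one]
  have q4 : ip C6 (pv (sr 2)) (pv (sr 2)) = 2 := by
    rw [hpv]
    decide
  have hE4 : h (E C6 (pv (sr 2))) = b⁻¹ • (E C6 (pv (sr 2)) : Lm C6 K) := by
    rw [hhE _ q4, hpv, i4, zpow_one]
  have X2 := f_XAU 6 C6 K _ (e3 _ (e2 (sr 2) q2.1)).1
  have X3 := f_XAU 6 C6 K _ (e3 _ (e2 (sr 3) r3.1)).1
  have X4 := f_XAU 6 C6 K _ (e3 _ (e2 (pv (sr 2)) q4)).1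
  refine ⟨t, ⟨f₀, hf₀⟩, y1 * y0, mul_mem hy1 hy0, ?_, fun v => ?_⟩
  · exact B7 y0 (LP 1) (LP 0) hM1 hM0
  · rw [htinv]
    have c1 : (((⟨f₀, hf₀⟩ * (x t * t) * (⟨f₀, hf₀⟩ : GF (RingEquiv.refl K))⁻¹ : GF (RingEquiv.refl K)) : Equiv.Perm (LT (RingEquiv.refl K))) v : Lm C6 K) =
        h (((x t : GF (RingEquiv.refl K)) : Equiv.Perm (LT (RingEquiv.refl K))) (f₁ (f₀⁻¹ v)) : Lm C6 K) := by
      rw [← hf₀h]
      rfl
    rw [c1, hb, hf₁X, (X2.2.2.1 h hhA).2, (X4.2.2.1 h hhA).2, (X3.2.2.1 h hhA).2, hE2, hE4, hE3]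
    have c2 : h ((f₀⁻¹ v : LT (RingEquiv.refl K)) : Lm C6 K) = v := by
      rw [← hf₀h]
      congr 1
      exact f₀.apply_symm_apply v
    rw [c2, (X2.2.2.2 b⁻¹).2, (X4.2.2.2 b⁻¹).2]
    have c3 : (y1 * y0) (v : Lm C6 K) = y1 (y0 v) := rfl
    rw [c3, hy1X, hy0X]
    have c4 : b⁻¹ * b = 1 := inv_mul_cancel₀ hb0
    have c5 : b⁻¹ * ((sn (sr 2) : K) * (RingEquiv.refl K) b) = (sn (sr 2) : K) * (RingEquiv.refl K) 1 := by
      rw [htau1, htau1]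
      field_simp
    rw [c4, c5]

end Pool.Agent.EXT
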