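import Pool.Agent.helper32.EXT.Spec7

/-! Row SLS of project EXT, block H (MP_561ff4_al). -/

set_option autoImplicit false

open Finset

namespace Pool.Agent.EXT

open Pool.Agent.EXC

theorem SLS_roots : LR th ∧ LR (th - sr 1) ∧ LR (-(th - sr 1)) ∧ LR (sr 1) ∧ ip C6 th (th - sr 1) = 1 ∧
    ip C6 (sr 1) (th - sr 1) = -1 ∧ -(th - sr 1) ≠ -th := by
  unfold LR
  decide

theorem SLS (hPCS : PCS_stmt) (hPAR : PAR_stmt) (hTFS : TFS_stmt) (hESF : ESF_stmt) (hSGR : SGR_stmt) : SLS_stmt := by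
  intro K _ τ hτ c σ hc hσf hσ
  obtain ⟨r1, r2, r3, r4, r5, r6, r7⟩ := SLS_roots
  obtain ⟨hLR, hES⟩ := hESF K τ hτ
  obtain ⟨-, hgen, -, -, -, hGS⟩ := hSGR K τ hτ
  obtain ⟨m, -, -, hm⟩ := hPCS K τ hτ c c hc hc
  have hm2 : m = 2 := ((hTFS K τ hτ c c m hm).2.2.2.2.2.1).2 ⟨1, (one_smul K c).symm⟩
  subst hm2
  obtain ⟨g0, hg0, -, -, -, hgc, -⟩ := hPAR K τ hτ c c 2 hm th th r1 r1 r1.1
  set g : Lm C6 K ≃ₗ[K] Lm C6 K := g0⁻¹ with hgdef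
  have hg : g ∈ GS τ := inv_mem hg0
  have hcg : c = g (E C6 th) := by
    rw [← hgc]
    exact (LinearEquiv.symm_apply_apply g0 c).symm
  have hauG : Au C6 g := (hGS g hg).2.1
  set α : Fin 6 → ℤ := th with hα0
  set β : Fin 6 → ℤ := th - sr 1 with hβ0
  have hα : ip C6 α α = 2 := r1.1
  have hβ : ip C6 β β = 2 := r2.1
  have hnβ : ip C6 (-β) (-β) = 2 := r3.1
  have hsum : sr 1 + β = α := by rw [hβ0, hα0]; abel
  -- the element `E α + E β`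
  have htf : τ ((sg C6 (sr 1) β : ℤ) : K) = ((sg C6 (sr 1) β : ℤ) : K) := map_intCast τ _
  obtain ⟨h, hh, hhX⟩ := hgen (sr 1) ((sg C6 (sr 1) β : ℤ) : K) r4 htf
  have hhβ : h (E C6 β) = (1 : K) • (E C6 α : Lm C6 K) + (1 : K) • E C6 β := by
    rw [hhX, (f_ACT 6 C6 K (sr 1) _ r4.1).2.1 β hβ r6, sg_sq, hsum, one_smul, one_smul]
    abel
  have hExs : ExS τ ((1 : K) • (E C6 α : Lm C6 K) + (1 : K) • E C6 β) := by
    rw [← hhβ]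
    exact (hES _ (hLR β r2)).2.2.2.1 h hh
  have hfEX := (f_EXF 6 C6 K (f_NBR 6 C6 1 th ![0, 2, 3, 4, 5] f_DE6.2).1).2.2.1
  have hXβ := (hfEX _ (hES _ (hLR β r2)).1).1
  have hXα := (hfEX _ (hES _ (hLR α r1)).1).1
  have hXs := (hfEX _ (hES _ hExs).1).1
  refine ⟨g (E C6 β), g (σ • E C6 (-β)), g ((1 : K) • (E C6 α : Lm C6 K) + (1 : K) • E C6 β), (hES _ (hLR β r2)).2.2.2.1 g hg,
    (hES _ ((hES _ (hLR (-β) r3)).2.2.2.2.1 σ hσf hσ)).2.2.2.1 g hg, (hES _ hExs).2.2.2.1 g hg, ?_, ?_, ?_⟩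
  · rw [hauG.fm, fm_smul_right, fm_E_E C6 hβ hnβ, if_pos rfl, mul_one]
  · rw [hauG.fm, fm_smul_right, fm_add_left, fm_smul_left, fm_smul_left, fm_E_E C6 hα hnβ, fm_E_E C6 hβ hnβ, if_neg r7,
      if_pos rfl]
    ring
  · intro v
    obtain ⟨w, rfl⟩ := g.surjective v
    have t1 := (f_XAU 6 C6 K _ hXα).2.2.1 g hauG
    have t2 := (f_XAU 6 C6 K _ hXβ).2.2.1 g hauG
    have t3 := (f_XAU 6 C6 K _ hXs).2.2.1 g hauG
    rw [hcg, ← t2.2, ← t1.2, ← t3.2]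
    congr 1
    have := (f_COL 6 C6 K α β hα hβ).1 r5
    rw [this.1 1 1 1 w, mul_one]

end Pool.Agent.EXT
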